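import Pool.Agent.H72.Malc3

set_option autoImplicit false

namespace Pool.Agent.Results.MP_62749c_al.Full

open H72.Malc

/-- The direct product of a virtually free group and a virtually nilpotent group is
Malcev coherent. -/
theorem result : ∀ (F H : Type) [Group F] [Group H],
    (∃ K : Subgroup F, K.FiniteIndex ∧ IsFreeGroup K) →
    (∃ N : Subgroup H, N.FiniteIndex ∧ Group.IsNilpotent N) →
    MalcevCoherent (F × H) := by
  intro F H _ _ hF hH
  exact mc_of_emb (MonoidHom.id (F × H)) Function.injective_id
    (fun A _ φ => mp_main F H hF hH A φ)

end Pool.Agent.Results.MP_62749c_al.Full
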